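import Mathlib

set_option autoImplicit false

namespace Pool.Agent.H5.MGHilb

open MvPolynomial

universe u

section defs

variable {R : Type u} [CommRing R] {σ : Type} {A : Type} [AddCommGroup A]

/-- The degree `a` part `(S_R / I)_a` of the quotient of `S_R = R[x_i : i ∈ σ]` by `I`, where the
variable `x_i` has degree `w i ∈ A`. -/
noncomputable def piece (w : σ → A) (I : Ideal (MvPolynomial σ R)) (a : A) :
    Submodule R (MvPolynomial σ R ⧸ I) :=
  (weightedHomogeneousSubmodule R w a).map (Ideal.Quotient.mkₐ R I).toLinearMap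

/-- `M` is a locally free `R`-module of rank `r`: finitely generated, projective, and of rank `r` at
every prime. -/
def LocFree (R : Type u) [CommRing R] (M : Type u) [AddCommGroup M] [Module R M] (r : ℕ) : Prop :=
  Module.Finite R M ∧ Module.Projective R M ∧ ∀ p : PrimeSpectrum R, Module.rankAtStalk M p = r

/-- `I` is an `R`-point of the multigraded Hilbert scheme `H_S^h`: it is `A`-homogeneous and
`(S_R / I)_a` is locally free of rank `h a` for every degree `a`. -/
def IsPoint (w : σ → A) (h : A → ℕ) (I : Ideal (MvPolynomial σ R)) : Prop :=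
  (∀ f ∈ I, ∀ a, weightedHomogeneousComponent w a f ∈ I) ∧ ∀ a, LocFree R (piece w I a) (h a)

/-- `H_S^h` is represented by `Spec B`: there is a universal `B`-point `J`, i.e. for every
`k`-algebra `R` the map `φ ↦ (base change of J along φ)` is a bijection from `Hom_k(B, R)` to the set
of `R`-points. -/
def Represents (k : Type u) [Field k] (w : σ → A) (h : A → ℕ) (B : Type u) [CommRing B]
    [Algebra k B] : Prop :=
  ∃ J : Ideal (MvPolynomial σ B), IsPoint w h J ∧
    ∀ (R : Type u) [CommRing R] [Algebra k R],
      (∀ φ : B →ₐ[k] R, IsPoint w h (J.map (MvPolynomial.map φ.toRingHom))) ∧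
      ∀ I : Ideal (MvPolynomial σ R), IsPoint w h I →
        ∃! φ : B →ₐ[k] R, J.map (MvPolynomial.map φ.toRingHom) = I

end defs

section rank_one

lemma rank_one_key {R L : Type u} [CommRing R] [AddCommGroup L] [Module R L] [Module.Finite R L]
    [Module.Projective R L] (hr : ∀ p : PrimeSpectrum R, Module.rankAtStalk L p = 1)
    (θ : L →ₗ[R] L) (J : Ideal R) [hJ : J.IsMaximal] :
      ∃ c : Localization J.primeCompl, ∀ m : L,
        LocalizedModule.mkLinearMap J.primeCompl L (θ m) =
          c • LocalizedModule.mkLinearMap J.primeCompl L m := by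
  let S := Localization J.primeCompl
  let M := LocalizedModule J.primeCompl L
  let f := LocalizedModule.mkLinearMap J.primeCompl L
  have hfree : Module.Free S M := Module.free_of_flat_of_isLocalRing
  have hrk : Module.finrank S M = 1 := hr ⟨J, hJ.isPrime⟩
  let θ' : M →ₗ[S] M := LocalizedModule.map J.primeCompl θ
  obtain ⟨e⟩ : Nonempty (S ≃ₗ[S] M) := by
    exact ⟨LinearEquiv.ofFinrankEq S M (by rw [hrk, Module.finrank_self])⟩
  have hc : ∃ c : S, ∀ m : M, θ' m = c • m := by
    refine ⟨e.symm (θ' (e 1)), fun m => ?_⟩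
    have h2 : m = e.symm m • e 1 := by
      rw [← map_smul, smul_eq_mul, mul_one, LinearEquiv.apply_symm_apply]
    have h3 : θ' (e 1) = e.symm (θ' (e 1)) • e 1 := by
      rw [← map_smul, smul_eq_mul, mul_one, LinearEquiv.apply_symm_apply]
    rw [h2, map_smul, smul_comm]
    rw [← h3]
  obtain ⟨c, hc⟩ := hc
  refine ⟨c, fun m => ?_⟩
  rw [← hc]
  exact (IsLocalizedModule.map_apply J.primeCompl f f θ m).symm

/-- If `L` has rank one, is generated by `e1, e2` and `θ e2 = e1`, then `e2` generates `L`. -/
lemma rank_one_surj {R L : Type u} [CommRing R] [AddCommGroup L] [Module R L] [Module.Finite R L]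
    [Module.Projective R L] (hr : ∀ p : PrimeSpectrum R, Module.rankAtStalk L p = 1)
    (θ : L →ₗ[R] L) (e1 e2 : L) (h1 : θ e2 = e1) (hgen : Submodule.span R {e1, e2} = ⊤) :
    Function.Surjective (LinearMap.toSpanSingleton R L e2) := by
  apply surjective_of_localized_maximal
  intro J hJ
  let S := Localization J.primeCompl
  let M := LocalizedModule J.primeCompl L
  let f := LocalizedModule.mkLinearMap J.primeCompl L
  obtain ⟨c, hc⟩ := rank_one_key hr θ J
  have h4 : f e1 = c • f e2 := by
    rw [← h1]; exact hc e2
  set g := LocalizedModule.map J.primeCompl (LinearMap.toSpanSingleton R L e2) with hg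
  have hge2 : f e2 ∈ LinearMap.range g := by
    refine ⟨LocalizedModule.mkLinearMap J.primeCompl R 1, ?_⟩
    have := IsLocalizedModule.map_apply J.primeCompl (LocalizedModule.mkLinearMap J.primeCompl R) f
      (LinearMap.toSpanSingleton R L e2) 1
    rw [LinearMap.toSpanSingleton_apply, one_smul] at this
    exact this
  have hge1 : f e1 ∈ LinearMap.range g := by
    rw [h4]; exact Submodule.smul_mem _ _ hge2
  have hall : ∀ l : L, f l ∈ LinearMap.range g := by
    intro l
    have hl : l ∈ Submodule.span R {e1, e2} := by rw [hgen]; trivial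
    rw [Submodule.mem_span_pair] at hl
    obtain ⟨a, b, rfl⟩ := hl
    rw [map_add, map_smul, map_smul]
    refine Submodule.add_mem _ ?_ ?_
    · rw [← IsScalarTower.algebraMap_smul S a (f e1)]
      exact Submodule.smul_mem _ _ hge1
    · rw [← IsScalarTower.algebraMap_smul S b (f e2)]
      exact Submodule.smul_mem _ _ hge2
  intro m
  obtain ⟨⟨l, s⟩, hls⟩ := IsLocalizedModule.surj J.primeCompl f m
  have hm : (algebraMap R S s) • m = f l := by
    rw [IsScalarTower.algebraMap_smul]
    exact hls
  have hu : IsUnit (algebraMap R S s) := IsLocalization.map_units S s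
  obtain ⟨v, hv⟩ := hu
  have hm2 : m = ((v⁻¹ : Sˣ) : S) • f l := by
    rw [← hm, ← hv, smul_smul, Units.inv_mul, one_smul]
  have : m ∈ LinearMap.range g := by
    rw [hm2]; exact Submodule.smul_mem _ _ (hall l)
  exact this

/-- A surjection `R → L` onto a module of rank one is bijective. -/
lemma rank_one_bij {R L : Type u} [CommRing R] [AddCommGroup L] [Module R L] [Module.Finite R L]
    [Module.Projective R L] (hr : ∀ p : PrimeSpectrum R, Module.rankAtStalk L p = 1)
    (g : R →ₗ[R] L) (hg : Function.Surjective g) : Function.Bijective g := by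
  refine Module.bijective_of_surjective_of_rankAtStalk_eq hg (fun m hm => ?_)
  have : Nontrivial R := ⟨⟨0, 1, fun h => hm.ne_top (by
    rw [Ideal.eq_top_iff_one, ← h]; exact m.zero_mem)⟩⟩
  rw [hr, Module.rankAtStalk_eq_finrank_of_free]
  simp

end rank_one

section nf

variable {R : Type u} [CommRing R] {σ : Type} {A : Type} [AddCommGroup A] {N : ℕ}

/-- linear extension of the normal forms of monomials. -/
noncomputable def NF (vec : (σ →₀ ℕ) → (Fin N → R)) : MvPolynomial σ R →ₗ[R] (Fin N → R) :=
  (basisMonomials σ R).constr R vec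

lemma NF_monomial (vec : (σ →₀ ℕ) → (Fin N → R)) (s : σ →₀ ℕ) (c : R) :
    NF vec (monomial s c) = c • vec s := by
  have h1 : (monomial s c : MvPolynomial σ R) = c • monomial s 1 := by
    rw [smul_monomial, smul_eq_mul, mul_one]
  rw [h1, map_smul]
  congr 1
  have := (basisMonomials σ R).constr_basis R vec s
  rw [coe_basisMonomials] at this
  exact this

/-- Compatibility of normal forms with multiplication by the variables. -/
def MulCompat (vec : (σ →₀ ℕ) → (Fin N → R)) : Prop :=
  ∀ i : σ, ∃ M : (Fin N → R) →ₗ[R] (Fin N → R), ∀ s, vec (s + Finsupp.single i 1) = M (vec s)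

lemma NF_X_mul (vec : (σ →₀ ℕ) → (Fin N → R)) (i : σ) (M : (Fin N → R) →ₗ[R] (Fin N → R))
    (hM : ∀ s, vec (s + Finsupp.single i 1) = M (vec s)) (f : MvPolynomial σ R) :
    NF vec (f * X i) = M (NF vec f) := by
  induction f using MvPolynomial.induction_on' with
  | monomial s c =>
    rw [X, monomial_mul, mul_one, NF_monomial, NF_monomial, map_smul, hM]
  | add p q hp hq => rw [add_mul, map_add, map_add, map_add, hp, hq]

/-- The ideal of polynomials with zero normal form. -/
noncomputable def nfIdeal (vec : (σ →₀ ℕ) → (Fin N → R)) (hv : MulCompat vec) :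
    Ideal (MvPolynomial σ R) where
  carrier := {f | NF vec f = 0}
  zero_mem' := by simp
  add_mem' := by
    intro a b ha hb
    simp only [Set.mem_ofPred_eq] at *
    rw [map_add, ha, hb, add_zero]
  smul_mem' := by
    intro p f hf
    simp only [Set.mem_ofPred_eq] at *
    rw [smul_eq_mul]
    induction p using MvPolynomial.induction_on with
    | C a => rw [C_mul', map_smul, hf, smul_zero]
    | add p q hp hq => rw [add_mul, map_add, hp, hq, add_zero]
    | mul_X p i hp =>
      obtain ⟨M, hM⟩ := hv i
      rw [show p * X i * f = (p * f) * X i by ring, NF_X_mul vec i M hM, hp, map_zero]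

lemma mem_nfIdeal (vec : (σ →₀ ℕ) → (Fin N → R)) (hv : MulCompat vec) (f : MvPolynomial σ R) :
    f ∈ nfIdeal vec hv ↔ NF vec f = 0 := Iff.rfl

variable (w : σ → A) (dg : Fin N → A) (vec : (σ →₀ ℕ) → (Fin N → R)) (b : Fin N → MvPolynomial σ R)

/-- A normal form system. -/
structure NFSys : Prop where
  compat : MulCompat vec
  base : ∀ j, NF vec (b j) = Pi.single j 1
  homog : ∀ s j, vec s j ≠ 0 → Finsupp.weight w s = dg j
  basedeg : ∀ j, IsWeightedHomogeneous w (b j) (dg j)

/-- Every monomial is congruent to its normal form modulo `I`. -/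
def Reduces (I : Ideal (MvPolynomial σ R)) : Prop :=
  ∀ s, (monomial s 1 : MvPolynomial σ R) - ∑ j, vec s j • b j ∈ I

variable {w dg vec b}

lemma reduces_all {I : Ideal (MvPolynomial σ R)} (hI : Reduces vec b I) (f : MvPolynomial σ R) :
    f - ∑ j, NF vec f j • b j ∈ I := by
  induction f using MvPolynomial.induction_on' with
  | monomial s c =>
    have h1 : (monomial s c : MvPolynomial σ R) - ∑ j, NF vec (monomial s c) j • b j =
        C c * (monomial s 1 - ∑ j, vec s j • b j) := by
      rw [mul_sub, C_mul', smul_monomial, smul_eq_mul, mul_one, C_mul', Finset.smul_sum]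
      congr 1
      refine Finset.sum_congr rfl (fun j _ => ?_)
      rw [NF_monomial, Pi.smul_apply, smul_eq_mul, mul_smul]
    rw [h1]
    exact Ideal.mul_mem_left _ _ (hI s)
  | add p q hp hq =>
    have h1 : p + q - ∑ j, NF vec (p + q) j • b j =
        (p - ∑ j, NF vec p j • b j) + (q - ∑ j, NF vec q j • b j) := by
      rw [map_add]
      simp only [Pi.add_apply, add_smul, Finset.sum_add_distrib]
      ring
    rw [h1]
    exact Ideal.add_mem _ hp hq

lemma nfIdeal_reduces (hs : NFSys w dg vec b) : Reduces vec b (nfIdeal vec hs.compat) := by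
  intro s
  rw [mem_nfIdeal, map_sub, NF_monomial, one_smul, map_sum, sub_eq_zero]
  ext i
  rw [Finset.sum_apply, Finset.sum_eq_single i]
  · rw [map_smul, hs.base, Pi.smul_apply, Pi.single_eq_same, smul_eq_mul, mul_one]
  · intro j _ hj
    rw [map_smul, hs.base, Pi.smul_apply, Pi.single_eq_of_ne hj.symm, smul_zero]
  · intro h; exact absurd (Finset.mem_univ i) h

lemma nfIdeal_le (hs : NFSys w dg vec b) {I : Ideal (MvPolynomial σ R)} (hI : Reduces vec b I) :
    nfIdeal vec hs.compat ≤ I := by
  intro f hf
  rw [mem_nfIdeal] at hf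
  have := reduces_all hI f
  rw [hf] at this
  simpa using this

/-- coordinates of a homogeneous polynomial live in its degree. -/
lemma NF_homog (hs : NFSys w dg vec b) (a : A) (f : MvPolynomial σ R)
    (hf : IsWeightedHomogeneous w f a) (j : Fin N) (hj : NF vec f j ≠ 0) : dg j = a := by
  by_contra hne
  apply hj
  have h1 : NF vec f = ∑ s ∈ f.support, coeff s f • vec s := by
    conv_lhs => rw [f.as_sum]
    rw [map_sum]
    exact Finset.sum_congr rfl (fun s _ => NF_monomial vec s _)
  rw [h1, Finset.sum_apply]
  refine Finset.sum_eq_zero (fun s hs' => ?_)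
  have h2 : vec s j = 0 := by
    by_contra h3
    have h4 := hs.homog s j h3
    have h5 := hf (mem_support_iff.1 hs')
    exact hne (h4.symm.trans h5)
  rw [Pi.smul_apply, h2, smul_zero]

variable [DecidableEq A]

/-- the comparison map from the free module on the basis elements of degree `a`. -/
noncomputable def kappa (dg : Fin N → A) (b : Fin N → MvPolynomial σ R) (I : Ideal (MvPolynomial σ R))
    (a : A) : ({j : Fin N // dg j = a} → R) →ₗ[R] (MvPolynomial σ R ⧸ I) :=
  Fintype.linearCombination R (fun j : {j : Fin N // dg j = a} => Ideal.Quotient.mk I (b j.1))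

lemma kappa_apply (I : Ideal (MvPolynomial σ R)) (a : A) (v : {j : Fin N // dg j = a} → R) :
    kappa dg b I a v = Ideal.Quotient.mk I (∑ j, v j • b j.1) := by
  rw [kappa, Fintype.linearCombination_apply, map_sum]
  rfl

lemma kappa_range (hs : NFSys w dg vec b) {I : Ideal (MvPolynomial σ R)} (hI : Reduces vec b I)
    (a : A) : LinearMap.range (kappa dg b I a) = piece w I a := by
  apply le_antisymm
  · rintro _ ⟨v, rfl⟩
    rw [kappa_apply]
    refine ⟨∑ j, v j • b j.1, ?_, rfl⟩
    refine Submodule.sum_mem _ (fun j _ => Submodule.smul_mem _ _ ?_)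
    have := hs.basedeg j.1
    rw [j.2] at this
    exact this
  · rintro _ ⟨f, hf, rfl⟩
    refine ⟨fun j => NF vec f j.1, ?_⟩
    rw [kappa_apply]
    change _ = Ideal.Quotient.mk I f
    rw [Ideal.Quotient.eq, ← neg_mem_iff, neg_sub]
    have h1 : ∑ j : {j : Fin N // dg j = a}, NF vec f j.1 • b j.1 = ∑ j, NF vec f j • b j := by
      rw [← Finset.sum_subtype (Finset.univ.filter (fun j => dg j = a)) (p := fun j => dg j = a)
        (by intro x; simp) (fun j => NF vec f j • b j)]
      refine Finset.sum_subset (Finset.filter_subset _ _) (fun j _ hj => ?_)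
      have h2 : NF vec f j = 0 := by
        by_contra h3
        exact hj (Finset.mem_filter.2 ⟨Finset.mem_univ j, NF_homog hs a f hf j h3⟩)
      rw [h2, zero_smul]
    rw [h1]
    exact reduces_all hI f

lemma kappa_inj (hs : NFSys w dg vec b) (a : A) :
    Function.Injective (kappa dg b (nfIdeal vec hs.compat) a) := by
  rw [← LinearMap.ker_eq_bot, LinearMap.ker_eq_bot']
  intro v hv
  rw [kappa_apply, Ideal.Quotient.eq_zero_iff_mem, mem_nfIdeal, map_sum] at hv
  ext i
  have h1 := congrFun hv i.1
  rw [Finset.sum_apply, Finset.sum_eq_single i] at h1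
  · rw [map_smul, hs.base, Pi.smul_apply, Pi.single_eq_same, smul_eq_mul, mul_one] at h1
    exact h1
  · intro j _ hj
    rw [map_smul, hs.base, Pi.smul_apply, Pi.single_eq_of_ne, smul_zero]
    exact fun h => hj (Subtype.ext h.symm)
  · intro h; exact absurd (Finset.mem_univ i) h

lemma locFree_pi {ι : Type} [Fintype ι] (M : Type u) [AddCommGroup M] [Module R M]
    (e : (ι → R) ≃ₗ[R] M) : LocFree R M (Fintype.card ι) := by
  refine ⟨Module.Finite.equiv e, Module.Projective.of_equiv e, fun p => ?_⟩
  have : Nontrivial R := ⟨⟨0, 1, fun h => p.isPrime.ne_top (by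
    rw [Ideal.eq_top_iff_one, ← h]; exact p.asIdeal.zero_mem)⟩⟩
  rw [← Module.rankAtStalk_eq_of_equiv e, Module.rankAtStalk_eq_finrank_of_free]
  simp

/-- The ideal of a normal form system is a point of the multigraded Hilbert scheme. -/
lemma nfIdeal_isPoint (hs : NFSys w dg vec b) :
    IsPoint w (fun a => Fintype.card {j : Fin N // dg j = a}) (nfIdeal vec hs.compat) := by
  constructor
  · intro f hf a
    rw [mem_nfIdeal] at *
    ext j
    by_cases hj : dg j = a
    · have h1 : ∀ g : MvPolynomial σ R, NF vec (weightedHomogeneousComponent w a g) j = NF vec g j := by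
        intro g
        induction g using MvPolynomial.induction_on' with
        | monomial s c =>
          classical
          by_cases hsw : Finsupp.weight w s = a
          · rw [weightedHomogeneousComponent_of_mem (m := a) (n := Finsupp.weight w s)
              (isWeightedHomogeneous_monomial w s c rfl), if_pos hsw.symm]
          · rw [weightedHomogeneousComponent_of_mem (m := a) (n := Finsupp.weight w s)
              (isWeightedHomogeneous_monomial w s c rfl), if_neg (fun h => hsw h.symm), map_zero, NF_monomial,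
              Pi.smul_apply, Pi.zero_apply]
            have : vec s j = 0 := by
              by_contra h3
              exact hsw ((hs.homog s j h3).trans hj)
            rw [this, smul_zero]
        | add p q hp hq => rw [map_add, map_add, map_add, Pi.add_apply, Pi.add_apply, hp, hq]
      rw [h1, hf]
    · by_contra h3
      exact hj (NF_homog hs a _ (weightedHomogeneousComponent_isWeightedHomogeneous a f) j h3)
  · intro a
    have e1 := LinearEquiv.ofInjective _ (kappa_inj hs a)
    have e2 := LinearEquiv.ofEq _ _ (kappa_range hs (nfIdeal_reduces hs) a)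
    exact locFree_pi _ (e1.trans e2)

/-- A point for which every monomial reduces to its normal form is the ideal of the system. -/
lemma eq_nfIdeal (hs : NFSys w dg vec b) {I : Ideal (MvPolynomial σ R)}
    (hI : Reduces vec b I) (hp : IsPoint w (fun a => Fintype.card {j : Fin N // dg j = a}) I) :
    I = nfIdeal vec hs.compat := by
  refine le_antisymm ?_ (nfIdeal_le hs hI)
  -- the comparison maps are injective
  have hinj : ∀ a, Function.Injective (kappa dg b I a) := by
    intro a
    obtain ⟨hfin, hproj, hrk⟩ := hp.2 a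
    have hmem : ∀ v, kappa dg b I a v ∈ piece w I a := by
      intro v
      rw [← kappa_range hs hI a]
      exact ⟨v, rfl⟩
    let g : ({j : Fin N // dg j = a} → R) →ₗ[R] piece w I a := (kappa dg b I a).codRestrict _ hmem
    have hsurj : Function.Surjective g := by
      rintro ⟨x, hx⟩
      rw [← kappa_range hs hI a] at hx
      obtain ⟨v, hv⟩ := hx
      exact ⟨v, Subtype.ext hv⟩
    have hbij : Function.Bijective g := by
      refine Module.bijective_of_surjective_of_rankAtStalk_eq hsurj (fun m hm => ?_)
      have : Nontrivial R := ⟨⟨0, 1, fun h => hm.ne_top (by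
        rw [Ideal.eq_top_iff_one, ← h]; exact m.zero_mem)⟩⟩
      rw [hrk, Module.rankAtStalk_eq_finrank_of_free]
      simp
    intro v v' hvv
    exact hbij.1 (Subtype.ext hvv)
  intro f hf
  rw [mem_nfIdeal]
  ext j
  by_contra hne
  -- pass to the component of degree `dg j`
  have hcomp := hp.1 f hf (dg j)
  set g := weightedHomogeneousComponent w (dg j) f with hg
  have hgh : IsWeightedHomogeneous w g (dg j) := weightedHomogeneousComponent_isWeightedHomogeneous _ f
  have h1 : ∀ g : MvPolynomial σ R, NF vec (weightedHomogeneousComponent w (dg j) g) j = NF vec g j := by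
    intro g
    induction g using MvPolynomial.induction_on' with
    | monomial s c =>
      classical
      by_cases hsw : Finsupp.weight w s = dg j
      · rw [weightedHomogeneousComponent_of_mem (m := dg j) (n := Finsupp.weight w s)
          (isWeightedHomogeneous_monomial w s c rfl), if_pos hsw.symm]
      · rw [weightedHomogeneousComponent_of_mem (m := dg j) (n := Finsupp.weight w s)
          (isWeightedHomogeneous_monomial w s c rfl), if_neg (fun h => hsw h.symm), map_zero, NF_monomial,
          Pi.smul_apply, Pi.zero_apply]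
        have : vec s j = 0 := by
          by_contra h3
          exact hsw (hs.homog s j h3)
        rw [this, smul_zero]
    | add p q hp hq => rw [map_add, map_add, map_add, Pi.add_apply, Pi.add_apply, hp, hq]
  have h2 : kappa dg b I (dg j) (fun i => NF vec g i.1) = 0 := by
    rw [kappa_apply, Ideal.Quotient.eq_zero_iff_mem]
    have h3 : ∑ i : {i : Fin N // dg i = dg j}, NF vec g i.1 • b i.1 = ∑ i, NF vec g i • b i := by
      rw [← Finset.sum_subtype (Finset.univ.filter (fun i => dg i = dg j)) (p := fun i => dg i = dg j)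
        (by intro x; simp) (fun i => NF vec g i • b i)]
      refine Finset.sum_subset (Finset.filter_subset _ _) (fun i _ hi => ?_)
      have h2 : NF vec g i = 0 := by
        by_contra h3
        exact hi (Finset.mem_filter.2 ⟨Finset.mem_univ i, NF_homog hs (dg j) g hgh i h3⟩)
      rw [h2, zero_smul]
    rw [h3]
    have h4 := reduces_all hI g
    have h5 : ∑ i, NF vec g i • b i = g - (g - ∑ i, NF vec g i • b i) := by ring
    rw [h5]
    exact Ideal.sub_mem _ hcomp h4
  have h6 := hinj (dg j) (h2.trans (map_zero _).symm)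
  have h7 := congrFun h6 ⟨j, rfl⟩
  simp only [Pi.zero_apply] at h7
  rw [hg, h1] at h7
  exact hne h7

/-- Base change of the ideal of a normal form system. -/
lemma map_nfIdeal {R' : Type u} [CommRing R'] (φ : R →+* R') (hs : NFSys w dg vec b)
    (vec' : (σ →₀ ℕ) → (Fin N → R')) (b' : Fin N → MvPolynomial σ R') (hs' : NFSys w dg vec' b')
    (hvec : ∀ s j, φ (vec s j) = vec' s j) (hb : ∀ j, MvPolynomial.map φ (b j) = b' j) :
    (nfIdeal vec hs.compat).map (MvPolynomial.map φ) = nfIdeal vec' hs'.compat := by
  apply le_antisymm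
  · rw [Ideal.map_le_iff_le_comap]
    intro f hf
    rw [Ideal.mem_comap, mem_nfIdeal]
    rw [mem_nfIdeal] at hf
    have key : ∀ (g : MvPolynomial σ R) (j : Fin N), NF vec' (MvPolynomial.map φ g) j = φ (NF vec g j) := by
      intro g j
      induction g using MvPolynomial.induction_on' with
      | monomial s c =>
        rw [map_monomial, NF_monomial, NF_monomial, Pi.smul_apply, Pi.smul_apply, smul_eq_mul,
          smul_eq_mul, map_mul, hvec]
      | add p q hp hq =>
        rw [map_add, map_add, map_add, Pi.add_apply, Pi.add_apply, map_add, hp, hq]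
    ext j
    rw [key, hf, Pi.zero_apply, map_zero, Pi.zero_apply]
  · refine nfIdeal_le hs' ?_
    intro s
    have h1 : (monomial s 1 : MvPolynomial σ R') - ∑ j, vec' s j • b' j =
        MvPolynomial.map φ (monomial s 1 - ∑ j, vec s j • b j) := by
      rw [map_sub, map_monomial, map_one φ, map_sum]
      congr 1
      refine Finset.sum_congr rfl (fun j _ => ?_)
      rw [← C_mul', ← C_mul', map_mul, map_C, hvec, hb]
    rw [h1]
    exact Ideal.mem_map_of_mem _ (nfIdeal_reduces hs s)

end nf

section pieces

variable {R : Type u} [CommRing R] {σ : Type} {A : Type} [AddCommGroup A]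
variable {w : σ → A} {h : A → ℕ} {I : Ideal (MvPolynomial σ R)}

lemma monomial_mem_piece {s : σ →₀ ℕ} {a : A} (hs : Finsupp.weight w s = a) :
    Ideal.Quotient.mk I (monomial s 1) ∈ piece w I a :=
  ⟨monomial s 1, isWeightedHomogeneous_monomial w s 1 hs, rfl⟩

lemma mem_of_rank_zero (hI : IsPoint w h I) {a : A} (ha : h a = 0) {s : σ →₀ ℕ}
    (hs : Finsupp.weight w s = a) : (monomial s 1 : MvPolynomial σ R) ∈ I := by
  obtain ⟨h1, h2, h3⟩ := hI.2 a
  have h4 : Subsingleton (piece w I a) := by
    rw [← Module.rankAtStalk_eq_zero_iff_subsingleton (R := R)]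
    ext p
    rw [h3, ha, Pi.zero_apply]
  have h5 : (⟨_, monomial_mem_piece hs⟩ : piece w I a) = 0 := Subsingleton.elim _ _
  have h6 := congrArg Subtype.val h5
  exact Ideal.Quotient.eq_zero_iff_mem.1 h6

lemma piece_le_span (a : A) :
    piece w I a ≤ Submodule.span R {q | ∃ s, Finsupp.weight w s = a ∧ q = Ideal.Quotient.mk I (monomial s 1)} := by
  rintro _ ⟨f, hf, rfl⟩
  change Ideal.Quotient.mk I f ∈ _
  rw [f.as_sum, map_sum]
  refine Submodule.sum_mem _ (fun s hs => ?_)
  have h1 : (monomial s (coeff s f) : MvPolynomial σ R) = coeff s f • monomial s 1 := by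
    rw [smul_monomial, smul_eq_mul, mul_one]
  have h2 : Ideal.Quotient.mk I (monomial s 1) ∈ Submodule.span R
      {q | ∃ s, Finsupp.weight w s = a ∧ q = Ideal.Quotient.mk I (monomial s 1)} :=
    Submodule.subset_span ⟨s, hf (mem_support_iff.1 hs), rfl⟩
  rw [h1]
  exact Submodule.smul_mem _ _ h2

/-- multiplication by a variable -/
noncomputable def mulX (I : Ideal (MvPolynomial σ R)) (i : σ) (a a' : A) (haa : a + w i = a') :
    piece w I a →ₗ[R] piece w I a' :=
  LinearMap.restrict (LinearMap.mulLeft R (Ideal.Quotient.mk I (X i))) (by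
    rintro _ ⟨f, hf, rfl⟩
    refine ⟨X i * f, ?_, ?_⟩
    · have := (isWeightedHomogeneous_X R w i).mul hf
      rw [add_comm, haa] at this
      exact this
    · change Ideal.Quotient.mk I (X i * f) = Ideal.Quotient.mk I (X i) * Ideal.Quotient.mk I f
      rw [map_mul])

lemma mulX_coe (i : σ) (a a' : A) (haa : a + w i = a') (x : piece w I a) :
    ((mulX I i a a' haa x : piece w I a') : MvPolynomial σ R ⧸ I) =
      Ideal.Quotient.mk I (X i) * (x : MvPolynomial σ R ⧸ I) := rfl

lemma mulX_bij (hI : IsPoint w h I) (i : σ) (a a' : A) (haa : a + w i = a') (hh : h a = h a')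
    (H : ∀ s, Finsupp.weight w s = a' → (monomial s 1 : MvPolynomial σ R) ∈ I ∨ 0 < s i) :
    Function.Bijective (mulX I i a a' haa) := by
  obtain ⟨h1, h2, h3⟩ := hI.2 a
  obtain ⟨h1', h2', h3'⟩ := hI.2 a'
  refine Module.bijective_of_surjective_of_rankAtStalk_eq ?_ (fun m hm => by rw [h3, h3', hh])
  have hspan : piece w I a' ≤ Submodule.map (piece w I a').subtype (LinearMap.range (mulX I i a a' haa)) := by
    refine (piece_le_span a').trans ?_
    rw [Submodule.span_le]
    rintro _ ⟨s, hs, rfl⟩
    rcases H s hs with h4 | h4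
    · rw [Ideal.Quotient.eq_zero_iff_mem.2 h4]
      exact Submodule.zero_mem _
    · obtain ⟨s', hs'⟩ : ∃ s', s = s' + Finsupp.single i 1 := by
        refine ⟨s - Finsupp.single i 1, ?_⟩
        rw [tsub_add_cancel_of_le]
        rw [Finsupp.single_le_iff]
        exact h4
      have hw : Finsupp.weight w s' = a := by
        rw [hs', map_add, Finsupp.weight_single, one_smul, ← haa] at hs
        exact add_right_cancel hs
      refine ⟨⟨Ideal.Quotient.mk I (monomial s 1), monomial_mem_piece hs⟩, ?_, rfl⟩
      refine ⟨⟨Ideal.Quotient.mk I (monomial s' 1), monomial_mem_piece hw⟩, ?_⟩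
      apply Subtype.ext
      rw [mulX_coe]
      change Ideal.Quotient.mk I (X i) * Ideal.Quotient.mk I (monomial s' 1) = Ideal.Quotient.mk I (monomial s 1)
      rw [← map_mul, X, monomial_mul, mul_one, hs', add_comm]
  rintro ⟨x, hx⟩
  obtain ⟨y, hy, hyx⟩ := hspan hx
  obtain ⟨v, hv⟩ := hy
  exact ⟨v, by rw [hv]; exact Subtype.ext hyx⟩

/-- generation of a piece by two classes -/
lemma span_pair_top {a : A} (e1 e2 : piece w I a)
    (H : ∀ s, Finsupp.weight w s = a → ∃ c d : R,
      Ideal.Quotient.mk I (monomial s 1) = c • (e1 : MvPolynomial σ R ⧸ I) + d • (e2 : MvPolynomial σ R ⧸ I)) :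
    Submodule.span R {e1, e2} = ⊤ := by
  rw [eq_top_iff]
  rintro ⟨x, hx⟩ -
  have hle : piece w I a ≤ Submodule.map (piece w I a).subtype (Submodule.span R {e1, e2}) := by
    refine (piece_le_span a).trans ?_
    rw [Submodule.span_le]
    rintro _ ⟨s, hs, rfl⟩
    obtain ⟨c, d, hcd⟩ := H s hs
    refine ⟨c • e1 + d • e2, ?_, ?_⟩
    · exact Submodule.add_mem _ (Submodule.smul_mem _ _ (Submodule.subset_span (by simp)))
        (Submodule.smul_mem _ _ (Submodule.subset_span (by simp)))
    · rw [hcd]; rfl
  obtain ⟨y, hy, hyx⟩ := hle hx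
  have : y = ⟨x, hx⟩ := Subtype.ext hyx
  rw [← this]; exact hy

end pieces

end Pool.Agent.H5.MGHilb
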