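import Mathlib

set_option autoImplicit false

namespace Pool.Agent.H5.Smooth

open MvPolynomial

universe u

/-- The base change along `φ : R → T` of the closed subscheme `V(J)` of `𝔸ⁿ_R`. -/
noncomputable def baseChange {R T : Type u} [CommRing R] [CommRing T] (φ : R →+* T) {n : ℕ}
    (J : Ideal (MvPolynomial (Fin n) R)) : Ideal (MvPolynomial (Fin n) T) :=
  J.map (MvPolynomial.map φ)

/-- `V(J) → Spec R` is finite and locally free (flat). -/
def FiniteFlat {R : Type u} [CommRing R] {n : ℕ} (J : Ideal (MvPolynomial (Fin n) R)) : Prop :=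
  Module.Finite R (MvPolynomial (Fin n) R ⧸ J) ∧ Module.Projective R (MvPolynomial (Fin n) R ⧸ J)

/-- The scheme `V(J)` is reduced. -/
def Reduced {R : Type u} [CommRing R] {n : ℕ} (J : Ideal (MvPolynomial (Fin n) R)) : Prop :=
  IsReduced (MvPolynomial (Fin n) R ⧸ J)

/-- The geometric generic point of `Spec R`. -/
noncomputable def genPt (R : Type u) [CommRing R] [IsDomain R] :
    R →+* AlgebraicClosure (FractionRing R) :=
  algebraMap R (AlgebraicClosure (FractionRing R))

/-- The finite subscheme `V(I')` of `𝔸ⁿ_k` is smoothable: it is the fibre, over a `k`-point `π` of an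
integral affine `k`-scheme `Spec R`, of a finite locally free family `V(J)` of subschemes of
`𝔸ⁿ` whose geometric generic fibre is reduced. -/
def Smoothable {k : Type u} [Field k] {n : ℕ} (I' : Ideal (MvPolynomial (Fin n) k)) : Prop :=
  ∃ (R : Type u) (_ : CommRing R) (_ : IsDomain R) (_ : Algebra k R) (π : R →ₐ[k] k)
    (J : Ideal (MvPolynomial (Fin n) R)),
    FiniteFlat J ∧ baseChange π.toRingHom J = I' ∧ Reduced (baseChange (genPt R) J)

/-- The degree of the finite subscheme `V(I)` of `𝔸ⁿ_k`. -/
noncomputable def deg {k : Type u} [Field k] {n : ℕ} (I : Ideal (MvPolynomial (Fin n) k)) : ℕ :=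
  Module.finrank k (MvPolynomial (Fin n) k ⧸ I)

section dependence

/-- More polynomials than variables are algebraically dependent. -/
lemma exists_relation {k : Type u} [Field k] {ι V : Type} [Fintype ι] [Fintype V]
    (h : Fintype.card V < Fintype.card ι) (F : ι → MvPolynomial V k) :
    ∃ P : MvPolynomial ι k, P ≠ 0 ∧ aeval F P = 0 := by
  by_contra hc
  push Not at hc
  have h1 : AlgebraicIndependent k F := by
    rw [algebraicIndependent_iff]
    intro p hp
    by_contra hne
    exact hc p hne hp
  have h2 := h1.lift_cardinalMk_le_trdeg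
  rw [MvPolynomial.trdeg_of_isDomain] at h2
  simp only [Cardinal.mk_fintype, Cardinal.lift_natCast] at h2
  have h3 : Fintype.card ι ≤ Fintype.card V := by exact_mod_cast h2
  omega

end dependence

section points

variable {K : Type u} [Field K] [IsAlgClosed K] {B : Type u} [CommRing B] [Algebra K B]
  [Module.Finite K B]

omit [IsAlgClosed K] in
lemma card_hom : Finite (B →ₐ[K] K) ∧ Nat.card (B →ₐ[K] K) ≤ Module.finrank K B := by
  have h1 := linearIndependent_toLinearMap K B K
  have h2 := h1.cardinalMk_le_finrank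
  have h3 : Finite (B →ₐ[K] K) := by
    have : Cardinal.mk (B →ₐ[K] K) < Cardinal.aleph0 := lt_of_le_of_lt h2 Cardinal.natCast_lt_aleph0
    exact Cardinal.lt_aleph0_iff_finite.1 this
  refine ⟨h3, ?_⟩
  have h5 : Module.finrank K (B →ₗ[K] K) = Module.finrank K B := Subspace.dual_finrank_eq
  rw [h5] at h2
  have : Fintype (B →ₐ[K] K) := Fintype.ofFinite _
  rw [Cardinal.mk_fintype] at h2
  rw [Nat.card_eq_fintype_card]
  exact_mod_cast h2

lemma span_hom [IsReduced B] :
    Submodule.span K (Set.range (AlgHom.toLinearMap : (B →ₐ[K] K) → B →ₗ[K] K)) = ⊤ := by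
  set W : Submodule K (Module.Dual K B) :=
    Submodule.span K (Set.range (AlgHom.toLinearMap : (B →ₐ[K] K) → B →ₗ[K] K)) with hW
  have h1 : W.dualCoannihilator = ⊥ := by
    rw [eq_bot_iff]
    intro b hb
    rw [Submodule.mem_dualCoannihilator] at hb
    have h2 : ∀ χ : B →ₐ[K] K, χ b = 0 := fun χ => hb _ (Submodule.subset_span ⟨χ, rfl⟩)
    have h3 : b ∈ nilradical B := by
      rw [nilradical_eq_sInf, Ideal.mem_sInf]
      intro M hM
      have hMm : M.IsMaximal := by
        have : IsArtinianRing B := IsArtinianRing.of_finite K B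
        have hM' : M.IsPrime := hM
        infer_instance
      have hfin : Module.Finite K (B ⧸ M) := inferInstance
      let _ : Field (B ⧸ M) := Ideal.Quotient.field M
      have hbij := IsAlgClosed.algebraMap_bijective_of_isIntegral (k := K) (K := B ⧸ M)
      let e : K ≃ₐ[K] (B ⧸ M) := AlgEquiv.ofBijective (Algebra.ofId K (B ⧸ M)) hbij
      have h4 := h2 (e.symm.toAlgHom.comp (Ideal.Quotient.mkₐ K M))
      have h5 : e.symm (Ideal.Quotient.mk M b) = 0 := h4
      have h6 : Ideal.Quotient.mk M b = 0 := by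
        have := congrArg e h5
        rw [AlgEquiv.apply_symm_apply, map_zero] at this
        exact this
      exact Ideal.Quotient.eq_zero_iff_mem.1 h6
    rw [nilradical_eq_zero] at h3
    exact h3
  have h2 := Subspace.dualCoannihilator_dualAnnihilator_eq (W := W)
  rw [h1, Submodule.dualAnnihilator_bot] at h2
  exact h2.symm

end points

section basechange

variable {R T : Type u} [CommRing R] [CommRing T] (φ : R →+* T) {n : ℕ}
  (J : Ideal (MvPolynomial (Fin n) R))

/-- the induced map `R[x]/J → T[x]/J_T`. -/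
noncomputable def bc : (MvPolynomial (Fin n) R ⧸ J) →+*
    (MvPolynomial (Fin n) T ⧸ J.map (MvPolynomial.map φ)) :=
  Ideal.quotientMap _ (MvPolynomial.map φ) Ideal.le_comap_map

lemma bc_mk (f : MvPolynomial (Fin n) R) :
    bc φ J (Ideal.Quotient.mk J f) = Ideal.Quotient.mk _ (MvPolynomial.map φ f) :=
  Ideal.quotientMap_mk

lemma bc_smul (r : R) (a : MvPolynomial (Fin n) R ⧸ J) : bc φ J (r • a) = φ r • bc φ J a := by
  obtain ⟨f, rfl⟩ := Ideal.Quotient.mk_surjective a
  have h1 : r • Ideal.Quotient.mk J f = Ideal.Quotient.mk J (C r * f) := by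
    rw [C_mul']; rfl
  rw [h1, bc_mk, bc_mk, map_mul, map_C, C_mul']
  rfl

lemma span_baseChange {ι : Type*} (g : ι → MvPolynomial (Fin n) R) (s : R) (hs : IsUnit (φ s))
    (h : ∀ f : MvPolynomial (Fin n) R, s • Ideal.Quotient.mk J f ∈
      Submodule.span R (Set.range fun i => Ideal.Quotient.mk J (g i))) :
    Submodule.span T (Set.range fun i =>
      Ideal.Quotient.mk (J.map (MvPolynomial.map φ)) (MvPolynomial.map φ (g i))) = ⊤ := by
  set N := Submodule.span T (Set.range fun i =>
      Ideal.Quotient.mk (J.map (MvPolynomial.map φ)) (MvPolynomial.map φ (g i))) with hN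
  have h1 : ∀ a ∈ Submodule.span R (Set.range fun i => Ideal.Quotient.mk J (g i)), bc φ J a ∈ N := by
    intro a ha
    induction ha using Submodule.span_induction with
    | mem x hx =>
      obtain ⟨i, rfl⟩ := hx
      exact Submodule.subset_span ⟨i, (bc_mk φ J _).symm⟩
    | zero => rw [map_zero]; exact N.zero_mem
    | add x y _ _ hx hy => rw [map_add]; exact N.add_mem hx hy
    | smul r x _ hx => rw [bc_smul]; exact N.smul_mem _ hx
  have h2 : ∀ m : Fin n →₀ ℕ, Ideal.Quotient.mk (J.map (MvPolynomial.map φ)) (monomial m 1) ∈ N := by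
    intro m
    have h3 := h1 _ (h (monomial m 1))
    rw [bc_smul, bc_mk, map_monomial, map_one] at h3
    obtain ⟨v, hv⟩ := hs
    rw [← hv] at h3
    have h4 := N.smul_mem ((v⁻¹ : Tˣ) : T) h3
    rw [smul_smul, Units.inv_mul, one_smul] at h4
    exact h4
  rw [eq_top_iff]
  rintro a -
  obtain ⟨f, rfl⟩ := Ideal.Quotient.mk_surjective a
  rw [f.as_sum, map_sum]
  refine N.sum_mem (fun m _ => ?_)
  have h5 : (monomial m (coeff m f) : MvPolynomial (Fin n) T) = coeff m f • monomial m 1 := by
    rw [smul_monomial, smul_eq_mul, mul_one]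
  rw [h5]
  exact N.smul_mem _ (h2 m)

end basechange

section nakayama

variable {k R : Type u} [Field k] [CommRing R] [Algebra k R] (π : R →ₐ[k] k) {n : ℕ}
  (J : Ideal (MvPolynomial (Fin n) R))

lemma map_sec (f : MvPolynomial (Fin n) k) :
    MvPolynomial.map π.toRingHom (MvPolynomial.map (algebraMap k R) f) = f := by
  rw [MvPolynomial.map_map]
  have : π.toRingHom.comp (algebraMap k R) = RingHom.id k := by
    ext a
    exact (π.commutes a)
  rw [this, MvPolynomial.map_id]

lemma map_surj : Function.Surjective (MvPolynomial.map (σ := Fin n) π.toRingHom) :=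
  fun f => ⟨_, map_sec π f⟩

/-- elements of the kernel of `R[x] → k[x]/I'` -/
lemma mem_comap (f : MvPolynomial (Fin n) R)
    (hf : MvPolynomial.map π.toRingHom f ∈ J.map (MvPolynomial.map π.toRingHom)) :
    Ideal.Quotient.mk J f ∈
      (RingHom.ker π.toRingHom) • (⊤ : Submodule R (MvPolynomial (Fin n) R ⧸ J)) := by
  have h1 : f ∈ Ideal.comap (MvPolynomial.map π.toRingHom) (J.map (MvPolynomial.map π.toRingHom)) := hf
  rw [Ideal.comap_map_of_surjective _ (map_surj π), Submodule.mem_sup] at h1
  obtain ⟨j, hj, h, hh, rfl⟩ := h1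
  have h2 : MvPolynomial.map π.toRingHom h = 0 := hh
  rw [map_add, Ideal.Quotient.eq_zero_iff_mem.2 hj, zero_add, h.as_sum, map_sum]
  refine Submodule.sum_mem _ (fun m _ => ?_)
  have h5 : (monomial m (coeff m h) : MvPolynomial (Fin n) R) = coeff m h • monomial m 1 := by
    rw [smul_monomial, smul_eq_mul, mul_one]
  rw [h5]
  have h6 : coeff m h ∈ RingHom.ker π.toRingHom := by
    rw [RingHom.mem_ker]
    have := congrArg (coeff m) h2
    rw [coeff_map, coeff_zero] at this
    exact this
  change coeff m h • Ideal.Quotient.mk J (monomial m 1) ∈ _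
  exact Submodule.smul_mem_smul (N := (⊤ : Submodule R (MvPolynomial (Fin n) R ⧸ J))) h6 trivial

lemma nakayama [Module.Finite R (MvPolynomial (Fin n) R ⧸ J)] {ι : Type*} [Finite ι]
    (b : ι → MvPolynomial (Fin n) k)
    (hb : Submodule.span k (Set.range fun i =>
      Ideal.Quotient.mk (J.map (MvPolynomial.map π.toRingHom)) (b i)) = ⊤) :
    ∃ s : R, π s = 1 ∧ ∀ f : MvPolynomial (Fin n) R, s • Ideal.Quotient.mk J f ∈
      Submodule.span R (Set.range fun i => Ideal.Quotient.mk J (MvPolynomial.map (algebraMap k R) (b i))) := by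
  have := Fintype.ofFinite ι
  set N := Submodule.span R (Set.range fun i =>
    Ideal.Quotient.mk J (MvPolynomial.map (algebraMap k R) (b i))) with hN
  have h1 : ∀ a : MvPolynomial (Fin n) R ⧸ J, ∃ c ∈ N, ∃ d ∈ (RingHom.ker π.toRingHom) •
      (⊤ : Submodule R (MvPolynomial (Fin n) R ⧸ J)), a = c + d := by
    intro a
    obtain ⟨f, rfl⟩ := Ideal.Quotient.mk_surjective a
    have h2 : Ideal.Quotient.mk (J.map (MvPolynomial.map π.toRingHom)) (MvPolynomial.map π.toRingHom f) ∈
        Submodule.span k (Set.range fun i =>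
          Ideal.Quotient.mk (J.map (MvPolynomial.map π.toRingHom)) (b i)) := by rw [hb]; trivial
    rw [Submodule.mem_span_range_iff_exists_fun] at h2
    obtain ⟨c, hc⟩ := h2
    refine ⟨∑ i, algebraMap k R (c i) • Ideal.Quotient.mk J (MvPolynomial.map (algebraMap k R) (b i)), ?_,
      Ideal.Quotient.mk J (f - ∑ i, algebraMap k R (c i) • MvPolynomial.map (algebraMap k R) (b i)), ?_, ?_⟩
    · exact N.sum_mem (fun i _ => N.smul_mem _ (Submodule.subset_span ⟨i, rfl⟩))
    · apply mem_comap
      rw [← Ideal.Quotient.eq_zero_iff_mem, map_sub, map_sub, ← hc, sub_eq_zero, map_sum, map_sum]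
      refine Finset.sum_congr rfl (fun i _ => ?_)
      rw [← C_mul', map_mul, map_C, map_sec]
      have : π.toRingHom (algebraMap k R (c i)) = c i := π.commutes _
      rw [this, C_mul']
      rfl
    · rw [map_sub, map_sum]
      have : ∀ i, Ideal.Quotient.mk J (algebraMap k R (c i) • MvPolynomial.map (algebraMap k R) (b i)) =
        algebraMap k R (c i) • Ideal.Quotient.mk J (MvPolynomial.map (algebraMap k R) (b i)) := fun i => rfl
      simp only [this]
      rw [add_sub_cancel]
  have h2 : (⊤ : Submodule R ((MvPolynomial (Fin n) R ⧸ J) ⧸ N)) ≤ (RingHom.ker π.toRingHom) •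
      (⊤ : Submodule R ((MvPolynomial (Fin n) R ⧸ J) ⧸ N)) := by
    rintro x -
    obtain ⟨a, rfl⟩ := Submodule.mkQ_surjective N x
    obtain ⟨c, hc, d, hd, rfl⟩ := h1 a
    rw [map_add]
    have h3 : N.mkQ c = 0 := by rw [Submodule.mkQ_apply, Submodule.Quotient.mk_eq_zero]; exact hc
    rw [h3, zero_add]
    have h4 : N.mkQ d ∈ Submodule.map N.mkQ ((RingHom.ker π.toRingHom) •
      (⊤ : Submodule R (MvPolynomial (Fin n) R ⧸ J))) := ⟨d, hd, rfl⟩
    rw [Submodule.map_smul''] at h4
    exact Submodule.smul_mono le_rfl le_top h4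
  obtain ⟨s, hs, hs'⟩ := Submodule.exists_sub_one_mem_and_smul_eq_zero_of_fg_of_le_smul _ _
    Module.Finite.fg_top h2
  refine ⟨s, ?_, fun f => ?_⟩
  · rw [RingHom.mem_ker, map_sub, map_one, sub_eq_zero] at hs
    exact hs
  · have h3 := hs' (N.mkQ (Ideal.Quotient.mk J f)) trivial
    rw [← map_smul, Submodule.mkQ_apply, Submodule.Quotient.mk_eq_zero] at h3
    exact h3

end nakayama

section functionals

variable {R : Type u} [CommRing R] {n : ℕ} (J : Ideal (MvPolynomial (Fin n) R))

/-- A functional on `R[x]/J` extends to `T[x]/J_T`. -/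
lemma extend_functional {T : Type u} [CommRing T] (φ : R →+* T)
    (Φ : (MvPolynomial (Fin n) R ⧸ J) →ₗ[R] R) :
    ∃ ψ : (MvPolynomial (Fin n) T ⧸ J.map (MvPolynomial.map φ)) →ₗ[T] T,
      ∀ m : Fin n →₀ ℕ, ψ (Ideal.Quotient.mk _ (monomial m 1)) = φ (Φ (Ideal.Quotient.mk J (monomial m 1))) := by
  let Ψ : MvPolynomial (Fin n) T →ₗ[T] T :=
    (basisMonomials (Fin n) T).constr T (fun m => φ (Φ (Ideal.Quotient.mk J (monomial m 1))))
  have hΨm : ∀ m, Ψ (monomial m 1) = φ (Φ (Ideal.Quotient.mk J (monomial m 1))) := by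
    intro m
    have := (basisMonomials (Fin n) T).constr_basis T (fun m => φ (Φ (Ideal.Quotient.mk J (monomial m 1)))) m
    rw [coe_basisMonomials] at this
    exact this
  have hΨ : ∀ f : MvPolynomial (Fin n) R, Ψ (MvPolynomial.map φ f) = φ (Φ (Ideal.Quotient.mk J f)) := by
    intro f
    induction f using MvPolynomial.induction_on' with
    | monomial m c =>
      have h1 : (monomial m c : MvPolynomial (Fin n) R) = c • monomial m 1 := by
        rw [smul_monomial, smul_eq_mul, mul_one]
      have h2 : (monomial m (φ c) : MvPolynomial (Fin n) T) = φ c • monomial m 1 := by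
        rw [smul_monomial, smul_eq_mul, mul_one]
      have h3 : Ideal.Quotient.mk J (c • monomial m 1) = c • Ideal.Quotient.mk J (monomial m 1) := rfl
      rw [map_monomial, h2, map_smul, hΨm, h1, h3, map_smul, smul_eq_mul, smul_eq_mul, map_mul]
    | add p q hp hq => rw [map_add, map_add, hp, hq, map_add, map_add, map_add]
  let L : Ideal (MvPolynomial (Fin n) T) :=
    { carrier := {f | ∀ g, Ψ (g * f) = 0}
      zero_mem' := by intro g; rw [mul_zero, map_zero]
      add_mem' := by
        intro a b ha hb g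
        rw [mul_add, map_add, ha g, hb g, add_zero]
      smul_mem' := by
        intro c f hf g
        rw [smul_eq_mul, ← mul_assoc]
        exact hf _ }
  have hL : J.map (MvPolynomial.map φ) ≤ L := by
    rw [Ideal.map_le_iff_le_comap]
    intro f hf g
    induction g using MvPolynomial.induction_on' with
    | monomial m c =>
      have h2 : (monomial m c : MvPolynomial (Fin n) T) = c • MvPolynomial.map φ (monomial m 1) := by
        rw [map_monomial, map_one, smul_monomial, smul_eq_mul, mul_one]
      rw [h2, smul_mul_assoc, map_smul, ← map_mul, hΨ, Ideal.Quotient.eq_zero_iff_mem.2 (J.mul_mem_left _ hf),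
        map_zero, map_zero, smul_zero]
    | add p q hp hq => rw [add_mul, map_add, hp, hq, add_zero]
  let ψ0 : (MvPolynomial (Fin n) T ⧸ (J.map (MvPolynomial.map φ)).restrictScalars T) →ₗ[T] T :=
    ((J.map (MvPolynomial.map φ)).restrictScalars T).liftQ Ψ (by
      intro f hf
      have := hL hf 1
      rw [one_mul] at this
      exact this)
  refine ⟨ψ0 ∘ₗ (Submodule.Quotient.restrictScalarsEquiv T (J.map (MvPolynomial.map φ))).symm.toLinearMap, ?_⟩
  intro m
  exact hΨm m

/-- A functional on `k[x]/I'` lifts to `R[x]/J`. -/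
lemma lift_functional {k : Type u} [Field k] [Algebra k R] (π : R →ₐ[k] k)
    [Module.Projective R (MvPolynomial (Fin n) R ⧸ J)] (ψ : MvPolynomial (Fin n) k →ₗ[k] k)
    (hψ : ∀ f ∈ J.map (MvPolynomial.map π.toRingHom), ψ f = 0) :
    ∃ Φ : (MvPolynomial (Fin n) R ⧸ J) →ₗ[R] R,
      ∀ f : MvPolynomial (Fin n) R, π (Φ (Ideal.Quotient.mk J f)) = ψ (MvPolynomial.map π.toRingHom f) := by
  let κ : R →ₗ[R] (R ⧸ RingHom.ker π.toRingHom) := (Ideal.Quotient.mkₐ R (RingHom.ker π.toRingHom)).toLinearMap
  have hκ : ∀ r : R, κ (algebraMap k R (π r)) = κ r := by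
    intro r
    change Ideal.Quotient.mk _ _ = Ideal.Quotient.mk _ _
    rw [Ideal.Quotient.eq, RingHom.mem_ker]
    change π (algebraMap k R (π r) - r) = 0
    rw [map_sub, π.commutes]
    exact sub_self _
  let T0 : MvPolynomial (Fin n) R →ₗ[R] (R ⧸ RingHom.ker π.toRingHom) :=
    { toFun := fun f => κ (algebraMap k R (ψ (MvPolynomial.map π.toRingHom f)))
      map_add' := by intro x y; rw [map_add, map_add, map_add, map_add]
      map_smul' := by
        intro r x
        have h1 : MvPolynomial.map π.toRingHom (r • x) = π r • MvPolynomial.map π.toRingHom x := by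
          rw [← C_mul', map_mul, map_C, C_mul']
          rfl
        rw [h1, map_smul, smul_eq_mul, map_mul, RingHom.id_apply]
        change Ideal.Quotient.mk _ _ = r • Ideal.Quotient.mk _ _
        rw [map_mul]
        have h2 : Ideal.Quotient.mk (RingHom.ker π.toRingHom) (algebraMap k R (π r)) =
          Ideal.Quotient.mk (RingHom.ker π.toRingHom) r := hκ r
        rw [h2]
        rfl }
  let T1 : (MvPolynomial (Fin n) R ⧸ J.restrictScalars R) →ₗ[R] (R ⧸ RingHom.ker π.toRingHom) :=
    (J.restrictScalars R).liftQ T0 (by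
      intro f hf
      change κ (algebraMap k R (ψ (MvPolynomial.map π.toRingHom f))) = 0
      rw [hψ _ (Ideal.mem_map_of_mem _ hf), map_zero, map_zero])
  let T2 : (MvPolynomial (Fin n) R ⧸ J) →ₗ[R] (R ⧸ RingHom.ker π.toRingHom) :=
    T1 ∘ₗ (Submodule.Quotient.restrictScalarsEquiv R J).symm.toLinearMap
  obtain ⟨Φ, hΦ⟩ := Module.projective_lifting_property κ T2 Ideal.Quotient.mk_surjective
  refine ⟨Φ, fun f => ?_⟩
  have h1 : κ (Φ (Ideal.Quotient.mk J f)) = κ (algebraMap k R (ψ (MvPolynomial.map π.toRingHom f))) :=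
    LinearMap.congr_fun hΦ (Ideal.Quotient.mk J f)
  have h2 : Φ (Ideal.Quotient.mk J f) - algebraMap k R (ψ (MvPolynomial.map π.toRingHom f)) ∈
      RingHom.ker π.toRingHom := Ideal.Quotient.eq.1 h1
  rw [RingHom.mem_ker] at h2
  have h3 : π (Φ (Ideal.Quotient.mk J f) - algebraMap k R (ψ (MvPolynomial.map π.toRingHom f))) = 0 := h2
  rw [map_sub, π.commutes, sub_eq_zero] at h3
  exact h3

end functionals

section key

variable {k : Type u} [Field k] {n : ℕ} {ι0 Q : Type} [Fintype ι0] [Fintype Q]

/-- The universal formula: `F (j, q) = ∑ᵢ cᵢⱼ pᵢ^(mono q)`. -/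
noncomputable def F (k : Type u) [Field k] (E : ℕ) (mono : Q → (Fin n →₀ ℕ)) (jq : ι0 × Q) :
    MvPolynomial ((Fin E × Fin n) ⊕ (Fin E × ι0)) k :=
  ∑ i : Fin E, X (Sum.inr (i, jq.1)) * (mono jq.2).prod (fun a e => X (Sum.inl (i, a)) ^ e)

lemma smoothable_finite {I' : Ideal (MvPolynomial (Fin n) k)} (h : Smoothable I') :
    Module.Finite k (MvPolynomial (Fin n) k ⧸ I') := by
  obtain ⟨R, _, _, _, π, J, ⟨hfin, hproj⟩, hJ, hred⟩ := h
  change J.map (MvPolynomial.map π.toRingHom) = I' at hJ
  subst hJ
  obtain ⟨N, s, hs⟩ := Module.Finite.exists_fin (R := R) (M := MvPolynomial (Fin n) R ⧸ J)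
  choose g hg using fun i => Ideal.Quotient.mk_surjective (s i)
  have h1 := span_baseChange π.toRingHom J g 1 (by rw [map_one]; exact isUnit_one) (by
    intro f
    have : (fun i => Ideal.Quotient.mk J (g i)) = s := funext hg
    rw [this, hs]; trivial)
  exact ⟨Submodule.fg_def.2 ⟨_, Set.finite_range _, h1⟩⟩

omit [Fintype ι0] [Fintype Q] in
lemma key (E : ℕ) (mono : Q → (Fin n →₀ ℕ)) (P : MvPolynomial (ι0 × Q) k)
    (hP : aeval (F k E mono) P = 0) (I' : Ideal (MvPolynomial (Fin n) k)) (h : Smoothable I')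
    (hE : Module.finrank k (MvPolynomial (Fin n) k ⧸ I') ≤ E)
    (ψ : ι0 → (MvPolynomial (Fin n) k →ₗ[k] k)) (hψ : ∀ j, ∀ f ∈ I', ψ j f = 0) :
    aeval (fun jq : ι0 × Q => ψ jq.1 (monomial (mono jq.2) 1)) P = 0 := by
  have hfin' := smoothable_finite h
  obtain ⟨R, _, _, _, π, J, ⟨hfin, hproj⟩, hJ, hred⟩ := h
  change J.map (MvPolynomial.map π.toRingHom) = I' at hJ
  subst hJ
  let K := AlgebraicClosure (FractionRing R)
  let φ : R →+* K := algebraMap R K
  have hφ : Function.Injective φ := by
    have h1 : φ = (algebraMap (FractionRing R) K).comp (algebraMap R (FractionRing R)) :=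
      IsScalarTower.algebraMap_eq R (FractionRing R) K
    rw [h1]
    exact (algebraMap (FractionRing R) K).injective.comp (IsFractionRing.injective R (FractionRing R))
  let B := MvPolynomial (Fin n) K ⧸ J.map (MvPolynomial.map φ)
  -- the generic fibre is finite, of degree at most `E`
  let bas := Module.finBasis k (MvPolynomial (Fin n) k ⧸ J.map (MvPolynomial.map π.toRingHom))
  choose b hb using fun i => Ideal.Quotient.mk_surjective (bas i)
  obtain ⟨s, hs1, hs2⟩ := nakayama π J b (by
    have : (fun i => Ideal.Quotient.mk (J.map (MvPolynomial.map π.toRingHom)) (b i)) = bas := funext hb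
    rw [this]; exact bas.span_eq)
  have hs0 : s ≠ 0 := by
    rintro rfl
    rw [map_zero] at hs1
    exact zero_ne_one hs1
  have hspan := span_baseChange φ J (fun i => MvPolynomial.map (algebraMap k R) (b i)) s
    (IsUnit.mk0 _ (fun h0 => hs0 (hφ (h0.trans (map_zero φ).symm)))) hs2
  have hBfin : Module.Finite K B := ⟨Submodule.fg_def.2 ⟨_, Set.finite_range _, hspan⟩⟩
  have hBE : Module.finrank K B ≤ E := by
    have h1 := finrank_le_of_span_eq_top hspan
    rw [Fintype.card_fin] at h1
    exact h1.trans hE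
  -- the points of the generic fibre
  obtain ⟨hhom, hcard⟩ := card_hom (K := K) (B := B)
  have hft := Fintype.ofFinite (B →ₐ[K] K)
  let emb : (B →ₐ[K] K) → Fin E := fun χ => Fin.castLE (hcard.trans hBE) (Finite.equivFin _ χ)
  have hemb : Function.Injective emb := by
    intro x y hxy
    exact (Finite.equivFin _).injective (Fin.castLE_injective _ hxy)
  have hred' : IsReduced B := hred
  have hspanχ := span_hom (K := K) (B := B)
  -- the functionals
  choose Φ hΦ using fun j => lift_functional J π (ψ j) (hψ j)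
  choose Ψ hΨ using fun j => extend_functional J φ (Φ j)
  have hc : ∀ j, ∃ c : (B →ₐ[K] K) → K, ∑ χ, c χ • χ.toLinearMap = Ψ j := by
    intro j
    have h1 : Ψ j ∈ Submodule.span K (Set.range (AlgHom.toLinearMap : (B →ₐ[K] K) → B →ₗ[K] K)) := by
      rw [hspanχ]; trivial
    rw [Submodule.mem_span_range_iff_exists_fun] at h1
    exact h1
  choose c hc using hc
  let pt : ((Fin E × Fin n) ⊕ (Fin E × ι0)) → K := Sum.elim
    (fun ia => Function.extend emb (fun χ => χ (Ideal.Quotient.mk _ (X ia.2))) 0 ia.1)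
    (fun ij => Function.extend emb (fun χ => c ij.2 χ) 0 ij.1)
  have hχ : ∀ (χ : B →ₐ[K] K) (m : Fin n →₀ ℕ), χ (Ideal.Quotient.mk _ (monomial m 1)) =
      m.prod (fun a e => χ (Ideal.Quotient.mk _ (X a)) ^ e) := by
    intro χ m
    let χ' : MvPolynomial (Fin n) K →ₐ[K] K := χ.comp (Ideal.Quotient.mkₐ K _)
    have h1 : χ' = aeval (fun a => χ' (X a)) := MvPolynomial.aeval_unique χ'
    have h2 : χ' (monomial m (1 : K)) = aeval (fun a => χ' (X a)) (monomial m (1 : K)) :=
      DFunLike.congr_fun h1 _
    rw [aeval_monomial, (algebraMap K K).map_one, one_mul] at h2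
    exact h2
  have hF : ∀ jq : ι0 × Q, eval₂Hom (φ.comp (algebraMap k R)) pt (F k E mono jq) =
      φ (Φ jq.1 (Ideal.Quotient.mk J (monomial (mono jq.2) 1))) := by
    rintro ⟨j, q⟩
    rw [← hΨ, ← hc, LinearMap.sum_apply, F, map_sum]
    refine (Fintype.sum_of_injective emb hemb _ _ ?_ ?_).symm
    · intro i hi
      rw [map_mul]
      have h1 : eval₂Hom (φ.comp (algebraMap k R)) pt (X (Sum.inr (i, j))) = 0 := by
        rw [eval₂Hom_X']
        exact Function.extend_apply' _ _ _ (fun ⟨x, hx⟩ => hi ⟨x, hx⟩)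
      rw [h1, zero_mul]
    · intro χ
      rw [map_mul, LinearMap.smul_apply, smul_eq_mul]
      congr 1
      · rw [eval₂Hom_X']
        exact (hemb.extend_apply _ _ _).symm
      · rw [AlgHom.toLinearMap_apply, hχ, Finsupp.prod, Finsupp.prod, map_prod]
        refine Finset.prod_congr rfl (fun a _ => ?_)
        rw [map_pow, eval₂Hom_X']
        congr 1
        exact (hemb.extend_apply (fun χ : B →ₐ[K] K => χ (Ideal.Quotient.mk _ (X a))) 0 χ).symm
  have h1 : eval₂Hom (φ.comp (algebraMap k R)) pt (aeval (F k E mono) P) = 0 := by rw [hP, map_zero]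
  rw [map_aeval] at h1
  have h2 : (eval₂Hom (φ.comp (algebraMap k R)) pt).comp (algebraMap k (MvPolynomial _ k)) =
      φ.comp (algebraMap k R) := by
    ext a
    rw [RingHom.comp_apply, MvPolynomial.algebraMap_eq, eval₂Hom_C]
  rw [h2] at h1
  have h3 : (fun i => eval₂Hom (φ.comp (algebraMap k R)) pt (F k E mono i)) =
      fun jq : ι0 × Q => φ (Φ jq.1 (Ideal.Quotient.mk J (monomial (mono jq.2) 1))) := funext hF
  rw [h3, ← map_aeval] at h1
  have h4 := hφ (h1.trans (map_zero φ).symm)
  have h5 := congrArg π h4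
  rw [map_zero, MvPolynomial.comp_aeval_apply] at h5
  have h6 : (fun i : ι0 × Q => π (Φ i.1 (Ideal.Quotient.mk J (monomial (mono i.2) 1)))) =
      fun jq : ι0 × Q => ψ jq.1 (monomial (mono jq.2) 1) := by
    funext jq
    rw [hΦ, map_monomial, map_one]
  rw [h6] at h5
  exact h5

end key

section ideal

variable {k : Type u} [Field k] {n r : ℕ}

/-- The index set of the quadratic monomials in `n` variables. -/
abbrev Q (n : ℕ) : Type := {p : Fin n × Fin n // p.1 ≤ p.2}

noncomputable def quad (q : Q n) : Fin n →₀ ℕ := Finsupp.single q.1.1 1 + Finsupp.single q.1.2 1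

lemma quad_inj : Function.Injective (quad (n := n)) := by
  intro q q' h
  have h1 := (Finsupp.single_add_single_eq_single_add_single one_ne_zero one_ne_zero).1 h
  have h2 := q.2
  have h3 := q'.2
  rcases h1 with ⟨h4, h5⟩ | ⟨-, h4, h5⟩ | ⟨h4, -⟩
  · exact Subtype.ext (Prod.ext h4 h5)
  · have h6 : q.1.1 = q'.1.1 := le_antisymm (by rw [← h5]; exact h2) (by rw [h4]; exact h3)
    have h7 : q.1.2 = q'.1.2 := by rw [h5, ← h6, h4]
    exact Subtype.ext (Prod.ext h6 h7)
  · omega

lemma quad_degree (q : Q n) : Finsupp.degree (quad q) = 2 := by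
  rw [quad, map_add, Finsupp.degree_single, Finsupp.degree_single]

lemma degree_zero_one_two (s : Fin n →₀ ℕ) (hs : Finsupp.degree s < 3) :
    s = 0 ∨ (∃ a, s = Finsupp.single a 1) ∨ ∃ q : Q n, s = quad q := by
  by_cases h0 : s = 0
  · left; exact h0
  right
  obtain ⟨a, ha⟩ : ∃ a, s a ≠ 0 := by
    by_contra hc
    push Not at hc
    exact h0 (Finsupp.ext hc)
  obtain ⟨s', hs'⟩ : ∃ s', s = s' + Finsupp.single a 1 := by
    refine ⟨s - Finsupp.single a 1, ?_⟩
    rw [tsub_add_cancel_of_le]
    rw [Finsupp.single_le_iff]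
    omega
  by_cases h1 : s' = 0
  · left; exact ⟨a, by rw [hs', h1, zero_add]⟩
  right
  obtain ⟨b, hb⟩ : ∃ b, s' b ≠ 0 := by
    by_contra hc
    push Not at hc
    exact h1 (Finsupp.ext hc)
  obtain ⟨s'', hs''⟩ : ∃ s'', s' = s'' + Finsupp.single b 1 := by
    refine ⟨s' - Finsupp.single b 1, ?_⟩
    rw [tsub_add_cancel_of_le]
    rw [Finsupp.single_le_iff]
    omega
  have h2 : s'' = 0 := by
    rw [hs', hs'', map_add, map_add, Finsupp.degree_single, Finsupp.degree_single] at hs
    exact (Finsupp.degree_eq_zero_iff _).1 (by omega)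
  rw [hs', hs'', h2, zero_add]
  rcases le_total b a with h | h
  · exact ⟨⟨(b, a), h⟩, rfl⟩
  · exact ⟨⟨(a, b), h⟩, add_comm _ _⟩

noncomputable def psi (M : Fin r × Q n → k) (j : Fin r) : MvPolynomial (Fin n) k →ₗ[k] k :=
  ∑ q : Q n, M (j, q) • lcoeff k (quad q)

lemma psi_apply (M : Fin r × Q n → k) (j : Fin r) (f : MvPolynomial (Fin n) k) :
    psi M j f = ∑ q : Q n, M (j, q) * coeff (quad q) f := by
  rw [psi, LinearMap.sum_apply]
  rfl

lemma psi_mono (M : Fin r × Q n → k) (j : Fin r) (q : Q n) : psi M j (monomial (quad q) 1) = M (j, q) := by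
  rw [psi_apply, Finset.sum_eq_single q]
  · rw [coeff_monomial, if_pos rfl, mul_one]
  · intro q' _ hq'
    rw [coeff_monomial, if_neg (fun h => hq' (quad_inj h).symm), mul_zero]
  · intro h; exact absurd (Finset.mem_univ q) h

noncomputable def lam (M : Fin r × Q n → k) :
    MvPolynomial (Fin n) k →ₗ[k] (k × (Fin n → k) × (Fin r → k)) :=
  (lcoeff k 0).prod ((LinearMap.pi (fun a => lcoeff k (Finsupp.single a 1))).prod
    (LinearMap.pi (fun j => psi M j)))

lemma lam_eq_zero (M : Fin r × Q n → k) (f : MvPolynomial (Fin n) k) : lam M f = 0 ↔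
    coeff 0 f = 0 ∧ (∀ a, coeff (Finsupp.single a 1) f = 0) ∧ ∀ j, psi M j f = 0 := by
  constructor
  · intro h
    exact ⟨congrArg Prod.fst h, fun a => congrFun (congrArg (fun x => x.2.1) h) a,
      fun j => congrFun (congrArg (fun x => x.2.2) h) j⟩
  · rintro ⟨h1, h2, h3⟩
    exact Prod.ext h1 (Prod.ext (funext h2) (funext h3))

lemma coeff_quad_X_mul (q : Q n) (i : Fin n) (f : MvPolynomial (Fin n) k)
    (h2 : ∀ a, coeff (Finsupp.single a 1) f = 0) : coeff (quad q) (X i * f) = 0 := by
  rw [coeff_X_mul']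
  split_ifs with hi
  · have h3 : i = q.1.1 ∨ i = q.1.2 := by
      by_contra hc
      push Not at hc
      rw [Finsupp.mem_support_iff] at hi
      apply hi
      rw [quad, Finsupp.add_apply, Finsupp.single_eq_of_ne hc.1, Finsupp.single_eq_of_ne hc.2, add_zero]
    rcases h3 with rfl | rfl
    · rw [quad, add_tsub_cancel_left]; exact h2 _
    · rw [quad, add_tsub_cancel_right]; exact h2 _
  · rfl

noncomputable def II (M : Fin r × Q n → k) : Ideal (MvPolynomial (Fin n) k) where
  carrier := {f | lam M f = 0}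
  zero_mem' := map_zero _
  add_mem' := by
    intro a b ha hb
    change lam M (a + b) = 0
    have ha' : lam M a = 0 := ha
    have hb' : lam M b = 0 := hb
    rw [map_add, ha', hb', add_zero]
  smul_mem' := by
    intro p f hf
    change lam M (p * f) = 0
    have hf' : lam M f = 0 := hf
    clear hf
    induction p using MvPolynomial.induction_on with
    | C a => rw [C_mul', map_smul, hf', smul_zero]
    | add p q hp hq => rw [add_mul, map_add, hp, hq, add_zero]
    | mul_X p i hp =>
      rw [mul_comm p (X i), mul_assoc]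
      obtain ⟨h1, h2, h3⟩ := (lam_eq_zero M _).1 hp
      rw [lam_eq_zero]
      refine ⟨?_, fun a => ?_, fun j => ?_⟩
      · rw [coeff_X_mul', if_neg (by simp)]
      · rw [coeff_X_mul']
        split_ifs with hi
        · have h4 : i = a := by
            by_contra hc
            rw [Finsupp.mem_support_iff, Finsupp.single_eq_of_ne hc] at hi
            exact hi rfl
          rw [h4, tsub_self]; exact h1
        · rfl
      · rw [psi_apply]
        exact Finset.sum_eq_zero (fun q _ => by rw [coeff_quad_X_mul q i _ h2, mul_zero])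

lemma mem_II (M : Fin r × Q n → k) (f : MvPolynomial (Fin n) k) : f ∈ II M ↔ lam M f = 0 := Iff.rfl

lemma II_le (M : Fin r × Q n → k) : II M ≤ idealOfVars (Fin n) k ^ 2 := by
  intro f hf
  obtain ⟨h1, h2, h3⟩ := (lam_eq_zero M f).1 hf
  rw [mem_pow_idealOfVars_iff']
  intro s hs
  rcases degree_zero_one_two s (by omega) with rfl | ⟨a, rfl⟩ | ⟨q, rfl⟩
  · exact h1
  · exact h2 a
  · rw [quad_degree] at hs; omega

lemma le_II (M : Fin r × Q n → k) : idealOfVars (Fin n) k ^ 3 ≤ II M := by
  intro f hf
  rw [mem_pow_idealOfVars_iff'] at hf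
  rw [mem_II, lam_eq_zero]
  refine ⟨hf _ (by simp), fun a => hf _ (by simp), fun j => ?_⟩
  rw [psi_apply]
  exact Finset.sum_eq_zero (fun q _ => by rw [hf _ (by rw [quad_degree]; norm_num), mul_zero])

/-- If `M` has an invertible maximal minor then the algebra has Hilbert function `(1, n, r)`. -/
lemma II_deg (M : Fin r × Q n → k) (e : Fin r → Q n)
    (hdet : (Matrix.of fun i j : Fin r => M (i, e j)).det ≠ 0) :
    deg (II M) = 1 + n + r := by
  have hsurj : Function.Surjective (lam M) := by
    rintro ⟨a, b, c⟩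
    set A : Matrix (Fin r) (Fin r) k := Matrix.of fun i j : Fin r => M (i, e j) with hA
    have hu : IsUnit A.det := isUnit_iff_ne_zero.2 hdet
    set y := A⁻¹.mulVec c with hy
    have hAy : A.mulVec y = c := by
      rw [hy, Matrix.mulVec_mulVec, Matrix.mul_nonsing_inv _ hu, Matrix.one_mulVec]
    have l0 : lam M (C 1) = (1, 0, 0) := by
      refine Prod.ext ?_ (Prod.ext (funext fun a => ?_) (funext fun j => ?_))
      · change coeff 0 (C 1 : MvPolynomial (Fin n) k) = 1
        simp
      · change coeff (Finsupp.single a 1) (C 1 : MvPolynomial (Fin n) k) = 0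
        rw [coeff_C, if_neg]
        intro h
        have := congrFun (congrArg DFunLike.coe h) a
        simp at this
      · change psi M j (C 1) = 0
        rw [psi_apply]
        refine Finset.sum_eq_zero (fun q _ => ?_)
        rw [coeff_C, if_neg, mul_zero]
        intro h
        have := congrArg Finsupp.degree h
        rw [quad_degree] at this
        simp at this
    have l1 : ∀ i, lam M (X i) = (0, Pi.single i 1, 0) := by
      intro i
      refine Prod.ext ?_ (Prod.ext (funext fun a => ?_) (funext fun j => ?_))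
      · change coeff 0 (X i : MvPolynomial (Fin n) k) = 0
        simp
      · change coeff (Finsupp.single a 1) (X i : MvPolynomial (Fin n) k) = (Pi.single i 1 : Fin n → k) a
        rw [coeff_X]
        by_cases h : i = a
        · subst h; simp
        · rw [if_neg, Pi.single_eq_of_ne (Ne.symm h)]
          intro h'
          exact h ((Finsupp.single_left_inj one_ne_zero).1 h')
      · change psi M j (X i) = 0
        rw [psi_apply]
        refine Finset.sum_eq_zero (fun q _ => ?_)
        rw [coeff_X, if_neg, mul_zero]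
        intro h
        have := congrArg Finsupp.degree h
        rw [quad_degree] at this
        simp at this
    have l2 : ∀ q, lam M (monomial (quad q) 1) = (0, 0, fun j => M (j, q)) := by
      intro q
      refine Prod.ext ?_ (Prod.ext (funext fun a => ?_) (funext fun j => ?_))
      · change coeff 0 (monomial (quad q) (1 : k)) = 0
        rw [coeff_monomial, if_neg]
        intro h
        have := congrArg Finsupp.degree h
        rw [quad_degree] at this
        simp at this
      · change coeff (Finsupp.single a 1) (monomial (quad q) (1 : k)) = 0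
        rw [coeff_monomial, if_neg]
        intro h
        have := congrArg Finsupp.degree h
        rw [quad_degree] at this
        simp at this
      · exact psi_mono M j q
    refine ⟨a • C 1 + ∑ i, b i • X i + ∑ j, y j • monomial (quad (e j)) 1, ?_⟩
    rw [map_add, map_add, map_smul, map_sum, map_sum, l0]
    have h1 : ∑ i, lam M (b i • X i) = (0, b, 0) := by
      have : ∀ i, lam M (b i • X i) = (0, Pi.single i (b i), 0) := by
        intro i
        rw [map_smul, l1]
        refine Prod.ext (by simp) (Prod.ext ?_ (by simp))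
        change b i • (Pi.single i 1 : Fin n → k) = Pi.single i (b i)
        rw [← Pi.single_smul, smul_eq_mul, mul_one]
      rw [Finset.sum_congr rfl (fun i _ => this i)]
      refine Prod.ext ?_ (Prod.ext ?_ ?_)
      · rw [Prod.fst_sum]; simp
      · rw [Prod.snd_sum, Prod.fst_sum]
        exact Finset.univ_sum_single b
      · rw [Prod.snd_sum, Prod.snd_sum]; simp
    have h2 : ∑ j, lam M (y j • monomial (quad (e j)) 1) = (0, 0, c) := by
      have : ∀ j, lam M (y j • monomial (quad (e j)) 1) = (0, 0, fun i => y j * M (i, e j)) := by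
        intro j
        rw [map_smul, l2]
        refine Prod.ext (by simp) (Prod.ext (by simp) ?_)
        rfl
      rw [Finset.sum_congr rfl (fun i _ => this i)]
      refine Prod.ext ?_ (Prod.ext ?_ ?_)
      · rw [Prod.fst_sum]; simp
      · rw [Prod.snd_sum, Prod.fst_sum]; simp
      · rw [Prod.snd_sum, Prod.snd_sum, ← hAy]
        funext i
        rw [Finset.sum_apply]
        change _ = ∑ j, A i j * y j
        exact Finset.sum_congr rfl (fun j _ => mul_comm _ _)
    rw [h1, h2]
    refine Prod.ext ?_ (Prod.ext ?_ ?_) <;> simp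
  have e1 := LinearMap.quotKerEquivOfSurjective (lam M) hsurj
  have h2 : LinearMap.ker (lam M) = (II M).restrictScalars k := rfl
  rw [h2] at e1
  have e2 := (Submodule.Quotient.restrictScalarsEquiv k (II M)).symm.trans e1
  rw [deg, e2.finrank_eq, Module.finrank_prod, Module.finrank_prod, Module.finrank_self,
    Module.finrank_fintype_fun_eq_card, Module.finrank_fintype_fun_eq_card, Fintype.card_fin,
    Fintype.card_fin, add_assoc]

/-- Non-smoothable algebras with Hilbert function `(1, n, r)` by a dimension count. -/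
theorem exists_nonsmoothable [Infinite k] (n r : ℕ) (e : Fin r ↪ Q n)
    (hcount : (1 + n + r) * (n + r) < r * Fintype.card (Q n)) :
    ∃ I : Ideal (MvPolynomial (Fin n) k), idealOfVars (Fin n) k ^ 3 ≤ I ∧
      I ≤ idealOfVars (Fin n) k ^ 2 ∧ deg I = 1 + n + r ∧ ¬ Smoothable I := by
  have hcard : Fintype.card ((Fin (1 + n + r) × Fin n) ⊕ (Fin (1 + n + r) × Fin r)) <
      Fintype.card (Fin r × Q n) := by
    rw [Fintype.card_sum, Fintype.card_prod, Fintype.card_prod, Fintype.card_prod, Fintype.card_fin,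
      Fintype.card_fin, Fintype.card_fin, ← mul_add]
    exact hcount
  obtain ⟨P, hP0, hP⟩ := exists_relation hcard (F k (1 + n + r) (ι0 := Fin r) quad)
  let D : MvPolynomial (Fin r × Q n) k := (Matrix.of fun i j : Fin r => X (i, e j)).det
  have hDev : ∀ M : Fin r × Q n → k, eval M D = (Matrix.of fun i j : Fin r => M (i, e j)).det := by
    intro M
    change (eval M) (Matrix.det _) = _
    rw [RingHom.map_det]
    congr 1
    ext i j
    simp
  have hD0 : D ≠ 0 := by
    intro h0
    have h1 := hDev (fun iq => if iq.2 = e iq.1 then 1 else 0)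
    rw [h0, map_zero] at h1
    have h2 : (Matrix.of fun i j : Fin r => (if e j = e i then (1 : k) else 0)) = 1 := by
      ext i j
      rw [Matrix.of_apply, Matrix.one_apply]
      by_cases h : i = j
      · subst h; simp
      · rw [if_neg h, if_neg (fun h' => h (e.injective h').symm)]
    have h3 : (Matrix.of fun i j : Fin r => (fun iq : Fin r × Q n => if iq.2 = e iq.1 then (1 : k) else 0) (i, e j)) =
      (Matrix.of fun i j : Fin r => (if e j = e i then (1 : k) else 0)) := rfl
    rw [h3, h2, Matrix.det_one] at h1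
    exact zero_ne_one h1
  obtain ⟨M, hM⟩ : ∃ M : Fin r × Q n → k, eval M (P * D) ≠ 0 := by
    by_contra hc
    push Not at hc
    exact mul_ne_zero hP0 hD0 (MvPolynomial.funext (fun M => by rw [hc M, map_zero]))
  rw [map_mul, hDev] at hM
  have hdeg := II_deg M e (right_ne_zero_of_mul hM)
  refine ⟨II M, le_II M, II_le M, hdeg, fun hs => ?_⟩
  have h1 := key (1 + n + r) quad P hP (II M) hs (le_of_eq hdeg) (psi M)
    (fun j f hf => ((lam_eq_zero M f).1 hf).2.2 j)
  apply left_ne_zero_of_mul hM
  rw [← h1]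
  have h2 : (fun jq : Fin r × Q n => psi M jq.1 (monomial (quad jq.2) 1)) = M :=
    funext (fun jq => psi_mono M jq.1 jq.2)
  rw [h2]
  rfl

end ideal

end Pool.Agent.H5.Smooth
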